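import Pool.Agent.Lib.H40Y.S

/-!
# H40Y, file B: infinite books fail; the host is the cone over the shift graph
-/

namespace Pool.Agent.H40Y

open Pool.Agent.StrongMax Cardinal

universe u

/-- `H` is a book with spine `ab`: `a`, `b` are adjacent, all other vertices are adjacent exactly to `a` and `b`. -/
def IsBook {W : Type u} (H : SimpleGraph W) (a b : W) : Prop :=
  a ≠ b ∧ ∀ x y, H.Adj x y ↔ x ≠ y ∧ (x = a ∨ x = b ∨ y = a ∨ y = b)

theorem IsBook.symm {W : Type u} {H : SimpleGraph W} {a b : W} (h : IsBook H a b) : IsBook H b a := by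
  refine ⟨h.1.symm, fun x y => ?_⟩
  rw [h.2 x y]
  constructor
  · rintro ⟨h1, h2⟩
    exact ⟨h1, by tauto⟩
  · rintro ⟨h1, h2⟩
    exact ⟨h1, by tauto⟩

section host

variable (O : Type u) [LinearOrder O]

/-- adjacency of the host -/
def hAdj : Option (O × O) → Option (O × O) → Prop
  | none, none => False
  | none, some p => p.1 < p.2
  | some p, none => p.1 < p.2
  | some p, some q => p.1 < p.2 ∧ q.1 < q.2 ∧ (p.2 = q.1 ∨ q.2 = p.1)

/-- The cone over the shift graph. -/
def host : SimpleGraph (Option (O × O)) where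
  Adj := hAdj O
  symm := ⟨by
    rintro (_ | p) (_ | q) h
    · exact h
    · exact h
    · exact h
    · exact ⟨h.2.1, h.1, h.2.2.symm⟩⟩
  loopless := ⟨by
    rintro (_ | p) h
    · exact h
    · rcases h.2.2 with h1 | h1
      · exact absurd h.1 (by rw [h1]; exact lt_irrefl _)
      · exact absurd h.1 (by rw [h1]; exact lt_irrefl _)⟩

end host

variable {O : Type u} [LinearOrder O] {W : Type u} {H : SimpleGraph W}

/-- The embedding. -/
theorem emb_book {a b : W} (hB : IsBook H a b) {F : Set (Sym2 (Option (O × O)))} {p q : O} (hpq : p < q)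
    (hs : s(none, some (p, q)) ∈ F)
    (hT : #W ≤ #({r : O | q < r ∧ s(none, some (q, r)) ∈ F ∧ s(some (p, q), some (q, r)) ∈ F} : Set O)) :
    ¬ HFree H F := by
  classical
  rw [not_hFree_iff]
  obtain ⟨g⟩ := hT
  obtain ⟨f, hf⟩ : ∃ f : W → Option (O × O), f = fun w => if w = a then none else if w = b then some (p, q)
    else some (q, (g w).1) := ⟨_, rfl⟩
  have fa : f a = none := by rw [hf]; simp
  have fb : f b = some (p, q) := by rw [hf]; simp [hB.1.symm]
  have fo : ∀ w, w ≠ a → w ≠ b → f w = some (q, (g w).1) := fun w h1 h2 => by rw [hf]; simp [h1, h2]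
  have hedge : ∀ w, w ≠ a → w ≠ b → s(f a, f w) ∈ F ∧ s(f b, f w) ∈ F := by
    intro w h1 h2
    rw [fa, fb, fo w h1 h2]
    exact ⟨(g w).2.2.1, (g w).2.2.2⟩
  refine ⟨f, fun x y hxy => ?_, fun x y hxy => ?_⟩
  · by_cases hxa : x = a
    · by_cases hya : y = a
      · rw [hxa, hya]
      · exfalso
        rw [hxa, fa] at hxy
        by_cases hyb : y = b
        · rw [hyb, fb] at hxy
          cases hxy
        · rw [fo y hya hyb] at hxy
          cases hxy
    · by_cases hya : y = a
      · exfalso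
        rw [hya, fa] at hxy
        by_cases hxb : x = b
        · rw [hxb, fb] at hxy
          cases hxy
        · rw [fo x hxa hxb] at hxy
          cases hxy
      · by_cases hxb : x = b
        · by_cases hyb : y = b
          · rw [hxb, hyb]
          · exfalso
            rw [hxb, fb, fo y hya hyb, Option.some_inj, Prod.mk.injEq] at hxy
            exact hpq.ne hxy.1
        · by_cases hyb : y = b
          · exfalso
            rw [hyb, fb, fo x hxa hxb, Option.some_inj, Prod.mk.injEq] at hxy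
            exact hpq.ne hxy.1.symm
          · rw [fo x hxa hxb, fo y hya hyb, Option.some_inj, Prod.mk.injEq] at hxy
            exact g.injective (Subtype.ext hxy.2)
  · obtain ⟨hne, h1⟩ := (hB.2 x y).1 hxy
    have hab : s(f a, f b) ∈ F := by rw [fa, fb]; exact hs
    have key : ∀ x y, x ≠ y → (x = a ∨ x = b) → s(f x, f y) ∈ F := by
      intro x y hne h
      rcases h with h | h
      · rw [h]
        by_cases hyb : y = b
        · rw [hyb]; exact hab
        · exact (hedge y (fun e => hne (h.trans e.symm)) hyb).1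
      · rw [h]
        by_cases hya : y = a
        · rw [hya, Sym2.eq_swap]; exact hab
        · exact (hedge y hya (fun e => hne (h.trans e.symm))).2
    rcases h1 with h1 | h1 | h1 | h1
    · exact key x y hne (Or.inl h1)
    · exact key x y hne (Or.inr h1)
    · rw [Sym2.eq_swap]
      exact key y x hne.symm (Or.inl h1)
    · rw [Sym2.eq_swap]
      exact key y x hne.symm (Or.inr h1)

/-- The analysis of a copy with `a` at the apex. -/
theorem ana_apex [Infinite W] (hI : ∀ i : O, #(Set.Iic i) < #W) {a b : W} (hB : IsBook H a b)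
    {F : Set (Sym2 (Option (O × O)))} (hFG : F ⊆ (host O).edgeSet) {e : Sym2 (Option (O × O))}
    (he : e ∈ (host O).edgeSet) {f : W → Option (O × O)} (hf : Function.Injective f)
    (hfa : ∀ x y, H.Adj x y → s(f x, f y) ∈ insert e F) (ha : f a = none) :
    ∃ p q : O, p < q ∧ s(none, some (p, q)) ∈ insert e F ∧
      #W ≤ #({r : O | q < r ∧ s(none, some (q, r)) ∈ F ∧ s(some (p, q), some (q, r)) ∈ F} : Set O) := by
  classical
  have hG : ∀ x y, H.Adj x y → (host O).Adj (f x) (f y) := fun x y hxy => by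
    rw [← SimpleGraph.mem_edgeSet]
    exact Set.insert_subset he hFG (hfa x y hxy)
  have hab : H.Adj a b := (hB.2 a b).2 ⟨hB.1, Or.inl rfl⟩
  obtain ⟨p, q, hb⟩ : ∃ p q, f b = some (p, q) := by
    have h1 := hG a b hab
    rcases h2 : f b with _ | ⟨p, q⟩
    · rw [ha, h2] at h1
      exact h1.elim
    · exact ⟨p, q, rfl⟩
  have hpq : p < q := by
    have h1 := hG a b hab
    rw [ha, hb] at h1
    exact h1
  refine ⟨p, q, hpq, by rw [← ha, ← hb]; exact hfa a b hab, ?_⟩
  by_contra hlt
  rw [not_le] at hlt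
  have hinf : ℵ₀ ≤ #W := Cardinal.aleph0_le_mk W
  obtain ⟨T, hT⟩ : ∃ T : Set O, T = {r : O | q < r ∧ s(none, some (q, r)) ∈ F ∧
    s(some (p, q), some (q, r)) ∈ F} := ⟨_, rfl⟩
  rw [← hT] at hlt
  obtain ⟨S, hS⟩ : ∃ S : Set (Option (O × O)), S = ({f a} ∪ {f b}) ∪ (((fun r => some (q, r)) '' T) ∪
    (((fun h => some (h, p)) '' Set.Iic p) ∪ ({v | s(none, v) = e} ∪ {v | s(some (p, q), v) = e}))) := ⟨_, rfl⟩
  have hsub1 : #({v | s((none : Option (O × O)), v) = e} : Set (Option (O × O))) ≤ 1 := by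
    rw [Cardinal.le_one_iff_subsingleton]
    exact ⟨fun x y => Subtype.ext (Sym2.congr_right.1 (x.2.trans y.2.symm))⟩
  have hsub2 : #({v | s((some (p, q) : Option (O × O)), v) = e} : Set (Option (O × O))) ≤ 1 := by
    rw [Cardinal.le_one_iff_subsingleton]
    exact ⟨fun x y => Subtype.ext (Sym2.congr_right.1 (x.2.trans y.2.symm))⟩
  have h1lt : (1 : Cardinal.{u}) < #W := Cardinal.one_lt_aleph0.trans_le hinf
  have hSlt : #S < #W := by
    rw [hS]
    refine (Cardinal.mk_union_le _ _).trans_lt (Cardinal.add_lt_of_lt hinf ?_ ?_)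
    · refine (Cardinal.mk_union_le _ _).trans_lt (Cardinal.add_lt_of_lt hinf ?_ ?_)
      · rw [Cardinal.mk_singleton]; exact h1lt
      · rw [Cardinal.mk_singleton]; exact h1lt
    · refine (Cardinal.mk_union_le _ _).trans_lt (Cardinal.add_lt_of_lt hinf ?_ ?_)
      · exact Cardinal.mk_image_le.trans_lt hlt
      · refine (Cardinal.mk_union_le _ _).trans_lt (Cardinal.add_lt_of_lt hinf ?_ ?_)
        · exact Cardinal.mk_image_le.trans_lt (hI p)
        · refine (Cardinal.mk_union_le _ _).trans_lt (Cardinal.add_lt_of_lt hinf ?_ ?_)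
          · exact hsub1.trans_lt h1lt
          · exact hsub2.trans_lt h1lt
  have hfS : ∀ w, f w ∈ S := by
    intro w
    rw [hS]
    by_cases hwa : w = a
    · exact Or.inl (Or.inl (by rw [hwa]; rfl))
    by_cases hwb : w = b
    · exact Or.inl (Or.inr (by rw [hwb]; rfl))
    right
    have e1 : H.Adj a w := (hB.2 a w).2 ⟨fun h => hwa h.symm, Or.inl rfl⟩
    have e2 : H.Adj b w := (hB.2 b w).2 ⟨fun h => hwb h.symm, Or.inr (Or.inl rfl)⟩
    have g2 := hG b w e2
    have i1 := hfa a w e1
    have i2 := hfa b w e2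
    rw [ha] at i1
    rw [hb] at i2 g2
    rcases h3 : f w with _ | ⟨k, l⟩
    · exact absurd (hf (h3.trans ha.symm)) hwa
    · rw [h3] at i1 i2 g2
      have g3 : p < q ∧ k < l ∧ (q = k ∨ l = p) := g2
      obtain ⟨-, hkl, h4 | h4⟩ := g3
      · subst h4
        by_cases j1 : s(none, some (q, l)) = e
        · exact Or.inr (Or.inr (Or.inl j1))
        by_cases j2 : s(some (p, q), some (q, l)) = e
        · exact Or.inr (Or.inr (Or.inr j2))
        · left
          refine ⟨l, ?_, rfl⟩
          rw [hT]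
          exact ⟨hkl, i1.resolve_left j1, i2.resolve_left j2⟩
      · subst h4
        exact Or.inr (Or.inl ⟨k, hkl.le, rfl⟩)
  have h5 : #W ≤ #S := Cardinal.mk_le_of_injective (f := fun w : W => (⟨f w, hfS w⟩ : S))
    (fun x y hxy => hf (congrArg Subtype.val hxy))
  exact absurd h5 (not_le.2 hSlt)

/-- The analysis. -/
theorem ana [Infinite W] (hI : ∀ i : O, #(Set.Iic i) < #W) {a b : W} (hB : IsBook H a b)
    {F : Set (Sym2 (Option (O × O)))} (hFG : F ⊆ (host O).edgeSet) {e : Sym2 (Option (O × O))}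
    (he : e ∈ (host O).edgeSet) (hno : ¬ HFree H (insert e F)) :
    ∃ p q : O, p < q ∧ s(none, some (p, q)) ∈ insert e F ∧
      #W ≤ #({r : O | q < r ∧ s(none, some (q, r)) ∈ F ∧ s(some (p, q), some (q, r)) ∈ F} : Set O) := by
  classical
  rw [not_hFree_iff] at hno
  obtain ⟨f, hf, hfa⟩ := hno
  by_cases ha : f a = none
  · exact ana_apex hI hB hFG he hf hfa ha
  by_cases hb : f b = none
  · exact ana_apex hI hB.symm hFG he hf hfa hb
  exfalso
  have hG : ∀ x y, H.Adj x y → (host O).Adj (f x) (f y) := fun x y hxy => by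
    rw [← SimpleGraph.mem_edgeSet]
    exact Set.insert_subset he hFG (hfa x y hxy)
  have hab : H.Adj a b := (hB.2 a b).2 ⟨hB.1, Or.inl rfl⟩
  obtain ⟨w, hw⟩ : ∃ w, w ∉ ({a} ∪ {b} ∪ {w | f w = none} : Set W) := by
    refine Set.Finite.exists_notMem (Set.Finite.union (Set.Finite.union (Set.finite_singleton a)
      (Set.finite_singleton b)) (Set.Subsingleton.finite ?_))
    intro x hx y hy
    exact hf (hx.trans (Eq.symm hy))
  have hwa : w ≠ a := fun h => hw (Or.inl (Or.inl h))
  have hwb : w ≠ b := fun h => hw (Or.inl (Or.inr h))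
  have hwn : f w ≠ none := fun h => hw (Or.inr h)
  have g1 := hG a b hab
  have g2 := hG a w ((hB.2 a w).2 ⟨fun h => hwa h.symm, Or.inl rfl⟩)
  have g3 := hG b w ((hB.2 b w).2 ⟨fun h => hwb h.symm, Or.inr (Or.inl rfl)⟩)
  rcases h1 : f a with _ | ⟨i, j⟩
  · exact ha h1
  rcases h2 : f b with _ | ⟨k, l⟩
  · exact hb h2
  rcases h3 : f w with _ | ⟨m, n⟩
  · exact hwn h3
  rw [h1, h2] at g1
  rw [h1, h3] at g2
  rw [h2, h3] at g3
  have g1' : i < j ∧ k < l ∧ (j = k ∨ l = i) := g1
  have g2' : i < j ∧ m < n ∧ (j = m ∨ n = i) := g2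
  have g3' : k < l ∧ m < n ∧ (l = m ∨ n = k) := g3
  obtain ⟨q1, q2, q3⟩ := g1'
  obtain ⟨-, q4, q5⟩ := g2'
  obtain ⟨-, -, q6⟩ := g3'
  rcases q3 with rfl | rfl <;> rcases q5 with rfl | rfl <;> rcases q6 with rfl | rfl <;>
    first
    | exact lt_irrefl _ q1
    | exact lt_irrefl _ q2
    | exact lt_irrefl _ q4
    | exact lt_asymm q1 q2
    | exact lt_asymm q1 q4
    | exact lt_asymm q2 q4
    | exact lt_irrefl _ (q1.trans (q2.trans q4))
    | exact lt_irrefl _ (q1.trans (q4.trans q2))

end Pool.Agent.H40Y
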