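import Pool.Agent.Lib.H40Y.B

/-!
# H40Y, file P: the paradox
-/

namespace Pool.Agent.H40Y

open Pool.Agent.StrongMax Cardinal

universe u

theorem no_max {O : Type u} [LinearOrder O] {W : Type u} {H : SimpleGraph W} [Infinite W]
    (hI : ∀ i : O, #(Set.Iic i) < #W) (hO : #O = #W) {a b : W} (hB : IsBook H a b)
    (F : Set (Sym2 (Option (O × O)))) (hF : StronglyMaximal H (host O) F) : False := by
  classical
  have hinf : ℵ₀ ≤ #W := Cardinal.aleph0_le_mk W
  have hst : ∀ e ∈ (host O).edgeSet, e ∉ F → ∃ p q : O, p < q ∧ s(none, some (p, q)) = e ∧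
      #W ≤ #({r : O | q < r ∧ s(none, some (q, r)) ∈ F ∧ s(some (p, q), some (q, r)) ∈ F} : Set O) := by
    intro e he heF
    obtain ⟨p, q, hpq, h1, h2⟩ := ana hI hB hF.1 he (add_edge hF he heF)
    rcases h1 with h1 | h1
    · exact ⟨p, q, hpq, h1, h2⟩
    · exact absurd hF.2.1 (emb_book hB hpq h1 h2)
  have hB2 : ∀ p q r : O, p < q → q < r → s(some (p, q), some (q, r)) ∈ F := by
    intro p q r hpq hqr
    by_contra hno
    obtain ⟨p', q', -, h1, -⟩ := hst s(some (p, q), some (q, r)) (by
      rw [SimpleGraph.mem_edgeSet]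
      exact ⟨hpq, hqr, Or.inl rfl⟩) hno
    rcases Sym2.eq_iff.1 h1 with h | h
    · cases h.1
    · cases h.1
  obtain ⟨R, hR⟩ : ∃ R : O → Prop, R = fun j => #W ≤ #({r : O | j < r ∧ s(none, some (j, r)) ∈ F} : Set O) :=
    ⟨_, rfl⟩
  have hR' : ∀ j, R j ↔ #W ≤ #({r : O | j < r ∧ s(none, some (j, r)) ∈ F} : Set O) := fun j => by rw [hR]
  have c1 : ∀ i j : O, i < j → (s(none, some (i, j)) ∈ F ↔ ¬ R j) := by
    intro i j hij
    constructor
    · intro h1 h2
      rw [hR'] at h2
      refine absurd hF.2.1 (emb_book hB hij h1 (h2.trans (Cardinal.mk_le_mk_of_subset ?_)))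
      intro r hr
      exact ⟨hr.1, hr.2, hB2 i j r hij hr.1⟩
    · intro h1
      by_contra h2
      obtain ⟨p, q, hpq, h3, h4⟩ := hst s(none, some (i, j)) (by
        rw [SimpleGraph.mem_edgeSet]
        exact hij) h2
      have h5 : (some (p, q) : Option (O × O)) = some (i, j) := Sym2.congr_right.1 h3
      rw [Option.some_inj, Prod.mk.injEq] at h5
      obtain ⟨rfl, rfl⟩ := h5
      apply h1
      rw [hR']
      refine h4.trans (Cardinal.mk_le_mk_of_subset ?_)
      intro r hr
      exact ⟨hr.1, hr.2.1⟩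
  have c2 : ∀ j, R j ↔ #W ≤ #({r : O | j < r ∧ ¬ R r} : Set O) := by
    intro j
    rw [hR']
    have e : {r : O | j < r ∧ s(none, some (j, r)) ∈ F} = {r : O | j < r ∧ ¬ R r} := by
      ext r
      exact and_congr_right fun h => c1 j r h
    rw [e]
  have c3 : ∀ j, R j ↔ #W ≤ #({r : O | ¬ R r} : Set O) := by
    intro j
    rw [c2]
    constructor
    · intro h
      exact h.trans (Cardinal.mk_le_mk_of_subset fun r hr => hr.2)
    · intro h
      by_contra hlt
      rw [not_le] at hlt
      have h1 : ({r : O | ¬ R r} : Set O) ⊆ {r : O | j < r ∧ ¬ R r} ∪ Set.Iic j := by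
        intro r hr
        by_cases h2 : j < r
        · exact Or.inl ⟨h2, hr⟩
        · exact Or.inr (not_lt.1 h2)
      have h2 := (Cardinal.mk_le_mk_of_subset h1).trans (Cardinal.mk_union_le _ _)
      exact absurd (h.trans h2) (not_le.2 (Cardinal.add_lt_of_lt hinf hlt (hI j)))
  by_cases h : #W ≤ #({r : O | ¬ R r} : Set O)
  · have h1 : ({r : O | ¬ R r} : Set O) = ∅ := by
      ext r
      constructor
      · intro hr
        exact absurd ((c3 r).2 h) hr
      · intro hr
        exact absurd hr (Set.notMem_empty r)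
    rw [h1] at h
    have h2 : #(↥(∅ : Set O)) = 0 := Cardinal.mk_eq_zero _
    rw [h2] at h
    exact absurd (hinf.trans h) (not_le.2 Cardinal.aleph0_pos)
  · have h1 : ({r : O | ¬ R r} : Set O) = Set.univ := by
      ext r
      constructor
      · intro _
        exact Set.mem_univ r
      · intro _ hr
        exact h ((c3 r).1 hr)
    apply h
    rw [h1, Cardinal.mk_univ, hO]

/-- Infinite books fail. -/
theorem fails_book {W : Type u} {H : SimpleGraph W} [Infinite W] {a b : W} (hB : IsBook H a b) :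
    Fails.{u} H := by
  have hinf : ℵ₀ ≤ #W := Cardinal.aleph0_le_mk W
  refine ⟨Option ((#W).ord.ToType × (#W).ord.ToType), host (#W).ord.ToType, fun F hF => ?_⟩
  refine no_max (O := (#W).ord.ToType) (fun i => ?_) ?_ hB F hF
  · rw [← Set.Iio_insert]
    refine (Cardinal.mk_insert_le).trans_lt (Cardinal.add_lt_of_lt hinf (Cardinal.mk_Iio_toType_ord_lt i)
      (Cardinal.one_lt_aleph0.trans_le hinf))
  · rw [Cardinal.mk_toType, Cardinal.card_ord]

end Pool.Agent.H40Y
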