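import Pool.Agent.Lib.StrongMax.Basic42

/-!
# H40Y, file S: graphs which embed in themselves without any given edge
-/

namespace Pool.Agent.H40Y

open Pool.Agent.StrongMax Cardinal

universe u

/-- `H` embeds in `H - e` for every edge `e` of `H`. -/
def Stable {W : Type u} (H : SimpleGraph W) : Prop :=
  ∀ a b, H.Adj a b → ∃ φ : W → W, Function.Injective φ ∧
    ∀ x y, H.Adj x y → H.Adj (φ x) (φ y) ∧ s(φ x, φ y) ≠ s(a, b)

/-- adding an edge to a strongly maximal set creates a copy of `H` -/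
theorem add_edge {W : Type u} {H : SimpleGraph W} {V : Type u} {G : SimpleGraph V} {F : Set (Sym2 V)}
    (hF : StronglyMaximal H G F) {e : Sym2 V} (he : e ∈ G.edgeSet) (heF : e ∉ F) : ¬ HFree H (insert e F) := by
  intro hfree
  have h1 := hF.2.2 (insert e F) (Set.insert_subset he hF.1) hfree
  have h2 : F \ insert e F = ∅ := by
    ext x
    constructor
    · intro hx
      exact absurd (Or.inr hx.1) hx.2
    · intro hx
      exact absurd hx (Set.notMem_empty x)
  have h4 : #(↥(insert e F \ F)) ≠ 0 := by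
    rw [Cardinal.mk_ne_zero_iff]
    exact ⟨⟨e, Or.inl rfl, heF⟩⟩
  have h5 : #(↥(F \ insert e F)) = 0 := by
    rw [h2]
    exact Cardinal.mk_eq_zero _
  rw [h5] at h1
  exact h4 (le_antisymm h1 bot_le)

theorem fails_stable {W : Type u} {H : SimpleGraph W} (h : Stable H) :
    Fails.{u} H := by
  refine ⟨W, H, fun F hF => ?_⟩
  have hfree := hF.2.1
  rw [hFree_iff] at hfree
  have h1 : ∃ e ∈ H.edgeSet, e ∉ F := by
    by_contra hcon
    push Not at hcon
    exact hfree id Function.injective_id (fun x y hxy => hcon _ (by rw [SimpleGraph.mem_edgeSet]; exact hxy))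
  obtain ⟨e, he, heF⟩ := h1
  have h2 := add_edge hF he heF
  rw [not_hFree_iff] at h2
  obtain ⟨f, hf, hfa⟩ := h2
  by_cases h3 : ∃ a b, H.Adj a b ∧ s(f a, f b) = e
  · obtain ⟨a, b, hab, hab'⟩ := h3
    obtain ⟨φ, hφ, hφa⟩ := h a b hab
    refine hfree (f ∘ φ) (hf.comp hφ) (fun x y hxy => ?_)
    obtain ⟨h4, h5⟩ := hφa x y hxy
    rcases hfa _ _ h4 with h6 | h6
    · exfalso
      rw [← hab', Sym2.eq_iff] at h6
      apply h5
      rw [Sym2.eq_iff]
      exact h6.imp (fun h => ⟨hf h.1, hf h.2⟩) (fun h => ⟨hf h.1, hf h.2⟩)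
    · exact h6
  · push Not at h3
    exact hfree f hf (fun x y hxy => (hfa x y hxy).resolve_left (h3 x y hxy))

end Pool.Agent.H40Y
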